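import Pool.Agent.Helper18.EW.Goals3

/-!
# EW-NC: choice of `Lg`
-/

set_option autoImplicit false

namespace Pool.Agent.Helper93.EW

open Finset
open Pool.Agent.Helper18.EW

theorem pow_aux (y : ℕ) (hy : 128 ≤ y) : 2 ^ 88 * y ^ 3 ≤ 2 ^ y := by
  induction y, hy using Nat.le_induction with
  | base => norm_num
  | succ y hy ih =>
    have h1 : (y + 1) ^ 3 ≤ 2 * y ^ 3 := by
      have : 128 * (y * y) ≤ y ^ 3 := by
        have : y ^ 3 = y * (y * y) := by ring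
        rw [this]
        exact Nat.mul_le_mul_right _ hy
      nlinarith
    calc 2 ^ 88 * (y + 1) ^ 3 ≤ 2 ^ 88 * (2 * y ^ 3) := Nat.mul_le_mul_left _ h1
      _ = 2 * (2 ^ 88 * y ^ 3) := by ring
      _ ≤ 2 * 2 ^ y := Nat.mul_le_mul_left _ ih
      _ = 2 ^ (y + 1) := by ring

/-- the largest `L` with `2^85 L^3 ≤ n` -/
theorem exists_L1 (n : ℕ) : ∃ L : ℕ, 2 ^ 85 * L ^ 3 ≤ n ∧ n < 2 ^ 85 * (L + 1) ^ 3 := by
  classical
  refine ⟨Nat.findGreatest (fun L => 2 ^ 85 * L ^ 3 ≤ n) n, ?_, ?_⟩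
  · exact Nat.findGreatest_spec (P := fun L => 2 ^ 85 * L ^ 3 ≤ n) (Nat.zero_le n) (by simp)
  · by_contra hcon
    push Not at hcon
    have hle : Nat.findGreatest (fun L => 2 ^ 85 * L ^ 3 ≤ n) n + 1 ≤ n := by
      refine le_trans ?_ hcon
      have h1 : ∀ a : ℕ, a + 1 ≤ 2 ^ 85 * (a + 1) ^ 3 := by
        intro a
        have : (a + 1) ^ 1 ≤ (a + 1) ^ 3 := Nat.pow_le_pow_right (by omega) (by omega)
        nlinarith
      exact h1 _
    exact Nat.findGreatest_is_greatest (P := fun L => 2 ^ 85 * L ^ 3 ≤ n)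
      (Nat.lt_succ_self _) hle hcon

theorem log_bound (m : ℕ) (hm : 1 ≤ m) : (Nat.log 2 m : ℝ) ≤ 2 * Real.log m := by
  have h1 : 2 ^ Nat.log 2 m ≤ m := Nat.pow_log_le_self 2 (by omega)
  have h2 : ((2 : ℝ) ^ Nat.log 2 m) ≤ m := by exact_mod_cast h1
  have h3 := Real.log_le_log (by positivity) h2
  rw [Real.log_pow] at h3
  have h4 := Real.log_two_gt_d9
  have h5 : (0 : ℝ) ≤ (Nat.log 2 m : ℝ) := Nat.cast_nonneg _
  nlinarith

theorem log_bound2 (n m : ℕ) (hn : 1 ≤ n) (hm : 1 ≤ m) (h : n ≤ 433 * m) :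
    (Nat.log 2 n : ℝ) ≤ 9 + 2 * Real.log m := by
  have h1 : 2 ^ Nat.log 2 n ≤ n := Nat.pow_log_le_self 2 (by omega)
  have h2 : ((2 : ℝ) ^ Nat.log 2 n) ≤ 2 ^ 9 * m := by
    have : 2 ^ Nat.log 2 n ≤ 2 ^ 9 * m := by omega
    exact_mod_cast this
  have hm' : (0 : ℝ) < m := by exact_mod_cast hm
  have h3 := Real.log_le_log (by positivity) h2
  rw [Real.log_pow, Real.log_mul (by positivity) hm'.ne', Real.log_pow] at h3
  have h4 := Real.log_two_gt_d9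
  have h5 : (0 : ℝ) ≤ Real.log m := Real.log_nonneg (by exact_mod_cast hm)
  push_cast at h3
  by_contra hcon
  push Not at hcon
  have h6 : (9 + 2 * Real.log m) * Real.log 2 < (Nat.log 2 n : ℝ) * Real.log 2 :=
    mul_lt_mul_of_pos_right hcon (by linarith)
  nlinarith

theorem lam (n m : ℕ) (hn : 1 ≤ n) (hm : 1 ≤ m) (h : n ≤ 433 * m) :
    ∃ La : ℕ, 1 ≤ La ∧ n * m < 2 ^ La ∧ (La : ℝ) ≤ 11 * (1 + Real.log m) := by
  refine ⟨Nat.log 2 m + Nat.log 2 n + 2, by omega, ?_, ?_⟩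
  · have h1 : m < 2 ^ (Nat.log 2 m + 1) := Nat.lt_pow_succ_log_self (by omega) m
    have h2 : n < 2 ^ (Nat.log 2 n + 1) := Nat.lt_pow_succ_log_self (by omega) n
    have h3 : (2 : ℕ) ^ (Nat.log 2 m + Nat.log 2 n + 2) =
        2 ^ (Nat.log 2 n + 1) * 2 ^ (Nat.log 2 m + 1) := by
      rw [← pow_add]
      congr 1
      omega
    rw [h3]
    exact Nat.mul_lt_mul'' h2 h1
  · have h1 := log_bound m hm
    have h2 := log_bound2 n m hn hm h
    have h3 : (0 : ℝ) ≤ Real.log m := Real.log_nonneg (by exact_mod_cast hm)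
    push_cast
    linarith

theorem exp_two (k : ℕ) : (2 : ℝ) ^ k ≤ Real.exp k := by
  have h1 : (2 : ℝ) ≤ Real.exp 1 := by
    have := Real.add_one_le_exp (1 : ℝ)
    linarith
  calc (2 : ℝ) ^ k ≤ (Real.exp 1) ^ k := pow_le_pow_left₀ (by norm_num) h1 k
    _ = Real.exp k := by rw [← Real.exp_nat_mul]; simp

theorem exp_four (k : ℕ) : Real.exp k ≤ (4 : ℝ) ^ k := by
  have h1 : Real.exp 1 ≤ 4 := by
    have := Real.exp_one_lt_d9
    linarith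
  calc Real.exp k = (Real.exp 1) ^ k := by rw [← Real.exp_nat_mul]; simp
    _ ≤ (4 : ℝ) ^ k := pow_le_pow_left₀ (Real.exp_pos _).le h1 k

/-- the first claim, with `A = 2 ^ 75 * Lg ^ 3 + 2 * Nat.sqrt n` -/
theorem first (n m W Lg : ℕ) (hm : 1 ≤ m) (hL : (Lg : ℝ) ≤ 11 * (1 + Real.log m))
    (hW : (2 : ℝ) ^ 158 * ((Real.sqrt n + (1 + Real.log m) ^ 3) * (1 + Real.log m) ^ 2) ≤ W) :
    2 ^ 65 * Lg ^ 2 * (2 ^ 75 * Lg ^ 3 + 2 * Nat.sqrt n) ≤ W := by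
  have h0 : (0 : ℝ) ≤ Real.log m := Real.log_nonneg (by exact_mod_cast hm)
  set Λ : ℝ := 1 + Real.log m with hΛ
  have hΛ1 : 1 ≤ Λ := by linarith
  have hLg0 : (0 : ℝ) ≤ Lg := Nat.cast_nonneg _
  have h2 : (Lg : ℝ) ^ 2 ≤ 121 * Λ ^ 2 := by
    calc (Lg : ℝ) ^ 2 ≤ (11 * Λ) ^ 2 := pow_le_pow_left₀ hLg0 hL 2
      _ = 121 * Λ ^ 2 := by ring
  have h3 : (Lg : ℝ) ^ 3 ≤ 1331 * Λ ^ 3 := by
    calc (Lg : ℝ) ^ 3 ≤ (11 * Λ) ^ 3 := pow_le_pow_left₀ hLg0 hL 3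
      _ = 1331 * Λ ^ 3 := by ring
  have h4 : ((Nat.sqrt n : ℕ) : ℝ) ≤ Real.sqrt n := by
    exact Real.nat_sqrt_le_real_sqrt
  have hs0 : (0 : ℝ) ≤ ((Nat.sqrt n : ℕ) : ℝ) := Nat.cast_nonneg _
  have hr0 := Real.sqrt_nonneg (n : ℝ)
  have hL3 : (0 : ℝ) ≤ (Lg : ℝ) ^ 3 := pow_nonneg hLg0 3
  have h5 : (2 : ℝ) ^ 75 * (Lg : ℝ) ^ 3 + 2 * ((Nat.sqrt n : ℕ) : ℝ) ≤
      (2 : ℝ) ^ 75 * 1331 * (Real.sqrt n + Λ ^ 3) := by
    nlinarith
  have h50 : (0 : ℝ) ≤ (2 : ℝ) ^ 75 * (Lg : ℝ) ^ 3 + 2 * ((Nat.sqrt n : ℕ) : ℝ) := by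
    nlinarith
  have h51 : (0 : ℝ) ≤ (2 : ℝ) ^ 65 * (121 * Λ ^ 2) := by
    nlinarith
  have h6 : (2 : ℝ) ^ 65 * (Lg : ℝ) ^ 2 * ((2 : ℝ) ^ 75 * (Lg : ℝ) ^ 3 +
      2 * ((Nat.sqrt n : ℕ) : ℝ)) ≤ W := by
    calc (2 : ℝ) ^ 65 * (Lg : ℝ) ^ 2 * ((2 : ℝ) ^ 75 * (Lg : ℝ) ^ 3 + 2 * ((Nat.sqrt n : ℕ) : ℝ))
        ≤ (2 : ℝ) ^ 65 * (121 * Λ ^ 2) * ((2 : ℝ) ^ 75 * 1331 * (Real.sqrt n + Λ ^ 3)) := by
          refine mul_le_mul ?_ h5 h50 h51
          linarith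
      _ = (161051 * (2 : ℝ) ^ 140) * ((Real.sqrt n + Λ ^ 3) * Λ ^ 2) := by ring
      _ ≤ (2 : ℝ) ^ 158 * ((Real.sqrt n + Λ ^ 3) * Λ ^ 2) := by
          apply mul_le_mul_of_nonneg_right _ (by positivity)
          norm_num
      _ ≤ W := hW
  exact_mod_cast h6

theorem goalNC : GoalNC := by
  refine ⟨Real.exp 4096, 1 / 2 ^ 30, ?_, by positivity, ?_⟩
  · exact Real.one_le_exp (by norm_num)
  intro n m W hn hm hnm hW3 hW
  have hm0 : (0 : ℝ) < m := by exact_mod_cast hm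
  have hl0 : (0 : ℝ) ≤ Real.log m := Real.log_nonneg (by exact_mod_cast hm)
  have hC2 : (2 : ℝ) ^ 158 ≤ Real.exp 4096 := by
    refine le_trans (exp_two 158) ?_
    apply Real.exp_le_exp.2
    norm_num
  set t : ℝ := (n : ℝ) ^ ((1 : ℝ) / 3) with ht
  have ht0 : 0 ≤ t := by positivity
  have ht3 : t ^ 3 = n := by
    rw [ht, ← Real.rpow_natCast, ← Real.rpow_mul (Nat.cast_nonneg n)]
    norm_num
  have hwin : win2 (1 / 2 ^ 30) n m = (Real.sqrt n + (1 + Real.log m) ^ 3) *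
      (1 + Real.log m) ^ 2 + (m : ℝ) ^ 2 * Real.exp (-(1 / 2 ^ 30 * t)) := rfl
  rw [hwin] at hW
  have hA0 : 0 ≤ (Real.sqrt n + (1 + Real.log m) ^ 3) * (1 + Real.log m) ^ 2 := by
    positivity
  have hB0 : 0 ≤ (m : ℝ) ^ 2 * Real.exp (-(1 / 2 ^ 30 * t)) := by positivity
  have hWA : (2 : ℝ) ^ 158 * ((Real.sqrt n + (1 + Real.log m) ^ 3) * (1 + Real.log m) ^ 2) ≤ W := by
    calc (2 : ℝ) ^ 158 * ((Real.sqrt n + (1 + Real.log m) ^ 3) * (1 + Real.log m) ^ 2)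
        ≤ Real.exp 4096 * ((Real.sqrt n + (1 + Real.log m) ^ 3) * (1 + Real.log m) ^ 2) :=
          mul_le_mul_of_nonneg_right hC2 hA0
      _ ≤ Real.exp 4096 * ((Real.sqrt n + (1 + Real.log m) ^ 3) * (1 + Real.log m) ^ 2 +
          (m : ℝ) ^ 2 * Real.exp (-(1 / 2 ^ 30 * t))) := by
          apply mul_le_mul_of_nonneg_left _ (Real.exp_pos _).le
          linarith
      _ ≤ (W : ℝ) := hW
  have hWB : Real.exp 4096 * ((m : ℝ) ^ 2 * Real.exp (-(1 / 2 ^ 30 * t))) ≤ W := by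
    calc Real.exp 4096 * ((m : ℝ) ^ 2 * Real.exp (-(1 / 2 ^ 30 * t)))
        ≤ Real.exp 4096 * ((Real.sqrt n + (1 + Real.log m) ^ 3) * (1 + Real.log m) ^ 2 +
          (m : ℝ) ^ 2 * Real.exp (-(1 / 2 ^ 30 * t))) := by
          apply mul_le_mul_of_nonneg_left _ (Real.exp_pos _).le
          linarith
      _ ≤ (W : ℝ) := hW
  -- `t` is large
  have htl : (2 : ℝ) ^ 41 ≤ t := by
    have h1 : Real.exp 4096 * ((m : ℝ) ^ 2 * Real.exp (-(1 / 2 ^ 30 * t))) ≤ 3 * (m : ℝ) ^ 2 := by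
      refine le_trans hWB ?_
      exact_mod_cast hW3
    have h2 : Real.exp 4096 * Real.exp (-(1 / 2 ^ 30 * t)) ≤ 3 := by
      have h3 : (Real.exp 4096 * Real.exp (-(1 / 2 ^ 30 * t))) * (m : ℝ) ^ 2 ≤
          3 * (m : ℝ) ^ 2 := by
        calc _ = Real.exp 4096 * ((m : ℝ) ^ 2 * Real.exp (-(1 / 2 ^ 30 * t))) := by ring
          _ ≤ _ := h1
      exact le_of_mul_le_mul_right h3 (by positivity)
    rw [← Real.exp_add] at h2
    have h4 : (4096 + -(1 / 2 ^ 30 * t)) + 1 ≤ 3 := le_trans (Real.add_one_le_exp _) h2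
    have h5 : (2 : ℝ) ^ 41 * (1 / 2 ^ 30) ≤ 1 / 2 ^ 30 * t := by
      have : (2 : ℝ) ^ 41 * (1 / 2 ^ 30) = 2048 := by norm_num
      rw [this]
      linarith
    have h6 : (0 : ℝ) < 1 / 2 ^ 30 := by positivity
    rw [mul_comm] at h5
    exact le_of_mul_le_mul_left h5 h6
  obtain ⟨L1, hL1a, hL1b⟩ := exists_L1 n
  have hL1t : t < 2 ^ 29 * ((L1 : ℝ) + 1) := by
    by_contra hcon
    push Not at hcon
    have h1 : (2 ^ 29 * ((L1 : ℝ) + 1)) ^ 3 ≤ t ^ 3 := pow_le_pow_left₀ (by positivity) hcon 3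
    rw [ht3] at h1
    have h2 : (n : ℝ) < 2 ^ 85 * ((L1 : ℝ) + 1) ^ 3 := by exact_mod_cast hL1b
    have h3 : (0 : ℝ) < ((L1 : ℝ) + 1) ^ 3 := by positivity
    nlinarith
  have hL1l : 128 ≤ L1 + 1 := by
    by_contra hcon
    push Not at hcon
    have h1 : (L1 : ℝ) + 1 < 128 := by exact_mod_cast hcon
    have h2 : t < 2 ^ 29 * 128 := by nlinarith
    have h3 : (2 : ℝ) ^ 29 * 128 ≤ 2 ^ 41 := by norm_num
    linarith
  have hL1n : n ≤ 2 ^ L1 := by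
    have h1 := pow_aux (L1 + 1) hL1l
    have h2 : 2 ^ (L1 + 1) = 2 * 2 ^ L1 := by ring
    rw [h2] at h1
    omega
  obtain ⟨La, hLa1, hLa2, hLa3⟩ := lam n m hn hm hnm
  have hnLa : n ≤ 2 ^ La := by
    have : n ≤ n * m := Nat.le_mul_of_pos_right n (by omega)
    omega
  have hmLa : m ≤ 2 ^ La := by
    have : m ≤ n * m := Nat.le_mul_of_pos_left m (by omega)
    omega
  have hLgA : ((min La L1 : ℕ) : ℝ) ≤ 11 * (1 + Real.log m) := by
    refine le_trans ?_ hLa3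
    exact_mod_cast min_le_left La L1
  have hfirst := first n m W (min La L1) hm hLgA hWA
  have hLg1 : 1 ≤ min La L1 := by
    apply le_min hLa1
    omega
  have hLgL1 : 2 ^ 85 * (min La L1) ^ 3 ≤ n := by
    refine le_trans ?_ hL1a
    exact Nat.mul_le_mul_left _ (Nat.pow_le_pow_left (min_le_right _ _) 3)
  have hkey : (2 ^ 75 * (min La L1) ^ 3 + 2 * Nat.sqrt n) * m ^ 2 ≤
      2 ^ 61 * (W * 4 ^ (min La L1)) := by
    rcases le_total La L1 with hc | hc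
    · rw [min_eq_left hc] at hfirst ⊢
      have h1 : 2 ^ 75 * La ^ 3 + 2 * Nat.sqrt n ≤ W := by
        refine le_trans ?_ hfirst
        have : 1 ≤ 2 ^ 65 * La ^ 2 := Nat.succ_le_of_lt (by positivity)
        exact Nat.le_mul_of_pos_left _ (by omega)
      have h2 : m ^ 2 ≤ 4 ^ La := by
        calc m ^ 2 ≤ (2 ^ La) ^ 2 := Nat.pow_le_pow_left hmLa 2
          _ = 4 ^ La := by rw [← pow_mul, mul_comm, pow_mul]; norm_num
      calc (2 ^ 75 * La ^ 3 + 2 * Nat.sqrt n) * m ^ 2 ≤ W * 4 ^ La := Nat.mul_le_mul h1 h2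
        _ ≤ 2 ^ 61 * (W * 4 ^ La) := Nat.le_mul_of_pos_left _ (by positivity)
    · rw [min_eq_right hc] at hLgL1 ⊢
      have h1 : 2 ^ 75 * L1 ^ 3 + 2 * Nat.sqrt n ≤ 3 * n := by
        have h2 : Nat.sqrt n ≤ n := Nat.sqrt_le_self n
        have h3 : 2 ^ 75 * L1 ^ 3 ≤ 2 ^ 85 * L1 ^ 3 := Nat.mul_le_mul_right _ (by norm_num)
        omega
      have h4 : (4 : ℝ) ^ L1 * 4 ≥ Real.exp (2 * (1 / 2 ^ 30 * t)) := by
        have h5 := exp_four (L1 + 1)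
        push_cast at h5
        have h6 : Real.exp (2 * (1 / 2 ^ 30 * t)) ≤ Real.exp ((L1 : ℝ) + 1) := by
          apply Real.exp_le_exp.2
          have : 2 * (1 / 2 ^ 30 * t) = t / 2 ^ 29 := by ring
          rw [this, div_le_iff₀ (by positivity)]
          linarith
        rw [pow_succ] at h5
        linarith
      have h7 : (n : ℝ) ≤ 6 * 2 ^ 90 * Real.exp (1 / 2 ^ 30 * t) := by
        have h8 : (1 / 2 ^ 30 * t) ^ 3 / 6 ≤ Real.exp (1 / 2 ^ 30 * t) := by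
          have := Real.pow_div_factorial_le_exp (1 / 2 ^ 30 * t) (by positivity) 3
          have h9 : ((Nat.factorial 3 : ℕ) : ℝ) = 6 := by norm_num [Nat.factorial]
          rw [h9] at this
          exact this
        rw [mul_pow, ht3] at h8
        have h10 : ((1 : ℝ) / 2 ^ 30) ^ 3 * n / 6 = n / (6 * 2 ^ 90) := by ring
        rw [h10, div_le_iff₀ (by positivity)] at h8
        linarith
      have h11 : ((3 : ℝ) * n) * (m : ℝ) ^ 2 ≤ 2 ^ 61 * (W * 4 ^ L1) := by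
        have h12 : Real.exp 4096 * (m : ℝ) ^ 2 * Real.exp (1 / 2 ^ 30 * t) ≤ W * (4 ^ L1 * 4) := by
          calc Real.exp 4096 * (m : ℝ) ^ 2 * Real.exp (1 / 2 ^ 30 * t)
              = (Real.exp 4096 * ((m : ℝ) ^ 2 * Real.exp (-(1 / 2 ^ 30 * t)))) *
                Real.exp (2 * (1 / 2 ^ 30 * t)) := by
                have : Real.exp (1 / 2 ^ 30 * t) = Real.exp (-(1 / 2 ^ 30 * t)) *
                    Real.exp (2 * (1 / 2 ^ 30 * t)) := by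
                  rw [← Real.exp_add]
                  congr 1
                  ring
                rw [this]
                simp only [mul_assoc]
            _ ≤ (W : ℝ) * (4 ^ L1 * 4) :=
                mul_le_mul hWB h4 (Real.exp_pos _).le (Nat.cast_nonneg _)
        have hm2 : (0 : ℝ) < (m : ℝ) ^ 2 := by positivity
        have h13 : ((3 : ℝ) * n) * (m : ℝ) ^ 2 ≤
            3 * (6 * 2 ^ 90 * Real.exp (1 / 2 ^ 30 * t)) * (m : ℝ) ^ 2 := by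
          apply mul_le_mul_of_nonneg_right _ hm2.le
          linarith
        have h14 : 3 * (6 * 2 ^ 90 * Real.exp (1 / 2 ^ 30 * t)) * (m : ℝ) ^ 2 ≤
            2 ^ 59 * (Real.exp 4096 * (m : ℝ) ^ 2 * Real.exp (1 / 2 ^ 30 * t)) := by
          have h15 : (18 : ℝ) * 2 ^ 90 ≤ 2 ^ 59 * Real.exp 4096 := by
            have : (18 : ℝ) * 2 ^ 90 ≤ 2 ^ 59 * 2 ^ 158 := by norm_num
            refine le_trans this ?_
            exact mul_le_mul_of_nonneg_left hC2 (by positivity)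
          have h16 : (0 : ℝ) < (m : ℝ) ^ 2 * Real.exp (1 / 2 ^ 30 * t) := by positivity
          calc 3 * (6 * 2 ^ 90 * Real.exp (1 / 2 ^ 30 * t)) * (m : ℝ) ^ 2
              = (18 * 2 ^ 90) * ((m : ℝ) ^ 2 * Real.exp (1 / 2 ^ 30 * t)) := by ring
            _ ≤ (2 ^ 59 * Real.exp 4096) * ((m : ℝ) ^ 2 * Real.exp (1 / 2 ^ 30 * t)) :=
                mul_le_mul_of_nonneg_right h15 h16.le
            _ = _ := by ring
        calc ((3 : ℝ) * n) * (m : ℝ) ^ 2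
            ≤ 2 ^ 59 * (Real.exp 4096 * (m : ℝ) ^ 2 * Real.exp (1 / 2 ^ 30 * t)) :=
              le_trans h13 h14
          _ ≤ 2 ^ 59 * (W * (4 ^ L1 * 4)) := mul_le_mul_of_nonneg_left h12 (by positivity)
          _ = 2 ^ 61 * (W * 4 ^ L1) := by ring
      have h17 : 3 * n * m ^ 2 ≤ 2 ^ 61 * (W * 4 ^ L1) := by exact_mod_cast h11
      exact le_trans (Nat.mul_le_mul_right _ h1) h17
  refine ⟨min La L1, hLg1, hLgL1, ?_, ?_⟩
  · rcases le_total La L1 with hc | hc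
    · rw [min_eq_left hc]; exact hnLa
    · rw [min_eq_right hc]; exact hL1n
  · intro l b hl hb h1 h2
    set Lg := min La L1 with hLg
    set A := 2 ^ 75 * Lg ^ 3 + 2 * Nat.sqrt n with hA
    refine ⟨?_, ?_⟩
    · calc 2 ^ 65 * Lg ^ 2 * m ≤ 2 ^ 65 * Lg ^ 2 * (l * A) := Nat.mul_le_mul_left _ h2
        _ = l * (2 ^ 65 * Lg ^ 2 * A) := by ring
        _ ≤ l * W := Nat.mul_le_mul_left _ hfirst
    · have hLg2 : 1 ≤ Lg ^ 2 := Nat.one_le_pow _ _ hLg1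
      have hbA : b ≤ A := by
        have h3 : l * b ≤ l * A := by
          calc l * b ≤ 2 ^ 31 * Lg ^ 2 * (l * b) := Nat.le_mul_of_pos_left _ (by positivity)
            _ = 2 ^ 31 * b * Lg ^ 2 * l := by ring
            _ ≤ m := h1
            _ ≤ l * A := h2
        exact Nat.le_of_mul_le_mul_left h3 (by omega)
      have h2A : 2 * A ≤ W := by
        refine le_trans ?_ hfirst
        apply Nat.mul_le_mul_right
        calc 2 ≤ 2 ^ 65 * 1 := by norm_num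
          _ ≤ 2 ^ 65 * Lg ^ 2 := Nat.mul_le_mul_left _ hLg2
      have hbl : 2 ^ 31 * (b * l) ≤ m := by
        calc 2 ^ 31 * (b * l) ≤ Lg ^ 2 * (2 ^ 31 * (b * l)) := Nat.le_mul_of_pos_left _ (by omega)
          _ = 2 ^ 31 * b * Lg ^ 2 * l := by ring
          _ ≤ m := h1
      have h5 : 2 ^ 62 * (b * (b * l) ^ 2) ≤ A * m ^ 2 := by
        calc 2 ^ 62 * (b * (b * l) ^ 2) = b * (2 ^ 31 * (b * l)) ^ 2 := by ring
          _ ≤ A * m ^ 2 := Nat.mul_le_mul hbA (Nat.pow_le_pow_left hbl 2)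
      have h6 : 2 ^ 62 * (b * (b * l) ^ 2) ≤ 2 ^ 61 * (W * 4 ^ Lg) := le_trans h5 hkey
      have h7 : 2 * (b * 4 ^ Lg) ≤ W * 4 ^ Lg := by
        calc 2 * (b * 4 ^ Lg) = (2 * b) * 4 ^ Lg := by ring
          _ ≤ W * 4 ^ Lg := Nat.mul_le_mul_right _ (by omega)
      have h8 : 2 * (b * (b * l) ^ 2) ≤ W * 4 ^ Lg := by
        have h9 : 2 ^ 61 * (2 * (b * (b * l) ^ 2)) ≤ 2 ^ 61 * (W * 4 ^ Lg) := by
          calc 2 ^ 61 * (2 * (b * (b * l) ^ 2)) = 2 ^ 62 * (b * (b * l) ^ 2) := by ring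
            _ ≤ _ := h6
        exact Nat.le_of_mul_le_mul_left h9 (by positivity)
      omega

end Pool.Agent.Helper93.EW
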